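import Mathlib
import Pool.Agent.Q18.ChMain

set_option linter.style.haveILetI false

namespace Pool.Agent.Results.MP_3e56e8_al.ChainCongruence

open Finset

universe u

/-- `N(s - I)`: the number of families `(U c)`, `c ∈ I`, of subgroups of `G` with
`|U c| = p ^ (s - c)` and `U c' ≤ U c` whenever `c < c'` (that is, chains
`U₁ ≤ U₂ ≤ … ≤ U_k` with `|U_i| = p ^ (s - c_i)` where `c₁ > c₂ > … > c_k` lists `I`). -/
noncomputable def chainCount (G : Type u) [Group G] (p s : ℕ) (I : Finset ℕ) : ℕ :=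
  Nat.card {U : I → Subgroup G // (∀ c, Nat.card (U c) = p ^ (s - c.1)) ∧
    ∀ c c', c.1 < c'.1 → U c' ≤ U c}

/-- `S_J(G) = ∑_{∅ ≠ I ⊆ J} (-1)^(|I|+1) N(s - I)`. -/
noncomputable def altSum (G : Type u) [Group G] (p s : ℕ) (J : Finset ℕ) : ℤ :=
  ∑ I ∈ J.powerset.erase ∅, (-1 : ℤ) ^ (#I + 1) * (chainCount G p s I : ℤ)

theorem result (G : Type u) [Group G] [Finite G] (p t n : ℕ) (hp : p.Prime)
    (hG : Nat.card G = p ^ t * n) (hn : ¬ p ∣ n) (s : ℕ) (hs : s ≤ t)
    (J : Finset ℕ) (_hJ : J.Nonempty) (hJs : J ⊆ Finset.Icc 0 s) :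
    altSum G p s J ≡ 1 [ZMOD (p : ℤ) ^ #J] := by
  haveI : Fact p.Prime := ⟨hp⟩
  have ht : (Nat.card G).factorization p = t := by
    have hn0 : n ≠ 0 := by
      rintro rfl
      exact hn (dvd_zero p)
    rw [hG, Nat.factorization_mul (pow_ne_zero _ hp.ne_zero) hn0, hp.factorization_pow]
    simp [Nat.factorization_eq_zero_of_not_dvd hn]
  have hd := Pool.Agent.Q18.Ch.T_dvd (G := G) p s (J := J) (by rw [ht]; exact hs)
    (fun c hc => (Finset.mem_Icc.1 (hJs hc)).2)
  have hcount : ∀ I : Finset ℕ, #(Pool.Agent.Q18.Ch.tup p s I (⊤ : Subgroup G)) =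
      chainCount G p s I := by
    intro I
    symm
    unfold chainCount
    apply Nat.subtype_card
    intro U
    rw [Pool.Agent.Q18.Ch.mem_tup]
    simp
  have hemp : (∅ : Finset ℕ) ∈ J.powerset := Finset.empty_mem_powerset J
  have h1 : ∑ I ∈ J.powerset.erase ∅,
      (-1 : ℤ) ^ #I * (#(Pool.Agent.Q18.Ch.tup p s I (⊤ : Subgroup G)) : ℤ) =
      - altSum G p s J := by
    unfold altSum
    rw [← Finset.sum_neg_distrib]
    apply Finset.sum_congr rfl
    intro I _
    rw [hcount I]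
    ring
  have hT : Pool.Agent.Q18.Ch.T p s J (⊤ : Subgroup G) = 1 - altSum G p s J := by
    unfold Pool.Agent.Q18.Ch.T
    rw [← Finset.add_sum_erase _ _ hemp, h1, Pool.Agent.Q18.Ch.card_tup_empty,
      Finset.card_empty]
    norm_num
    ring
  rw [hT] at hd
  exact (Int.modEq_iff_dvd).2 hd

end Pool.Agent.Results.MP_3e56e8_al.ChainCongruence
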